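import Pool.Agent.Run7.h538.TP.Stm

/-! # Piece COL of project TP (helper538): columns of the resolvent (helper299) -/

set_option autoImplicit false

open Finset Matrix

namespace Run7.h299.TP

open Run7.h538.TP

theorem flip_mulVec {V : Type} [Fintype V] [DecidableEq V] (A : Matrix V V ℝ) {x y : V} (hxy : x ≠ y)
    (w : V → ℝ) (i : V) : (A *ᵥ w) i = (Run7.h538.TP.flip A x y *ᵥ w) i +
      (if i = x then 2 * A x y * w y else 0) + (if i = y then 2 * A y x * w x else 0) := by
  have key : ∀ j, A i j * w j = Run7.h538.TP.flip A x y i j * w j +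
      (if i = x then (if j = y then 2 * A x y * w y else 0) else 0) +
      (if i = y then (if j = x then 2 * A y x * w x else 0) else 0) := by
    intro j
    unfold Run7.h538.TP.flip
    rw [Matrix.of_apply]
    by_cases h1 : i = x
    · by_cases h2 : j = y
      · subst h1 h2
        rw [if_pos (Or.inl ⟨rfl, rfl⟩), if_pos rfl, if_pos rfl, if_neg hxy]
        ring
      · subst h1
        rw [if_neg (by rintro (⟨-, h⟩ | ⟨h, -⟩); exacts [h2 h, hxy h]), if_pos rfl, if_neg h2, if_neg hxy]
        ring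
    · by_cases h3 : i = y
      · by_cases h4 : j = x
        · subst h3 h4
          rw [if_pos (Or.inr ⟨rfl, rfl⟩), if_neg h1, if_pos rfl, if_pos rfl]
          ring
        · subst h3
          rw [if_neg (by rintro (⟨h, -⟩ | ⟨-, h⟩); exacts [h1 h, h4 h]), if_neg h1, if_pos rfl, if_neg h4]
          ring
      · rw [if_neg (by rintro (⟨h, -⟩ | ⟨h, -⟩); exacts [h1 h, h3 h]), if_neg h1, if_neg h3]
        ring
  simp only [Matrix.mulVec, dotProduct]
  rw [Finset.sum_congr rfl fun j _ => key j, Finset.sum_add_distrib, Finset.sum_add_distrib]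
  congr 1
  · congr 1
    by_cases h : i = x <;> simp [h]
  · by_cases h : i = y <;> simp [h]

theorem t_COL : S_COL := by
  intro V _ _ A μ x y hA hxy hAxy hinj hD
  obtain ⟨u, v, hli, hu, hv⟩ := hD
  -- an eigenvector of `C` which vanishes at `x`
  obtain ⟨w, hw0, hwx, hw⟩ : ∃ w : V → ℝ, w ≠ 0 ∧ w x = 0 ∧ Run7.h538.TP.flip A x y *ᵥ w = μ • w := by
    by_cases hux : u x = 0
    · refine ⟨u, ?_, hux, hu⟩
      have := hli.ne_zero 0
      simpa using this
    · refine ⟨v x • u - u x • v, ?_, ?_, ?_⟩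
      · intro h
        have h1 := (LinearIndependent.pair_iff.1 hli) (v x) (-(u x)) (by
          rw [neg_smul, ← sub_eq_add_neg]
          exact h)
        exact hux (neg_eq_zero.1 h1.2)
      · simp only [Pi.sub_apply, Pi.smul_apply, smul_eq_mul]
        ring
      · rw [Matrix.mulVec_sub, Matrix.mulVec_smul, Matrix.mulVec_smul, hu, hv, smul_sub,
          smul_comm (v x) μ u, smul_comm (u x) μ v]
  have hAw : A *ᵥ w = μ • w + Pi.single x (2 * A x y * w y) := by
    ext i
    rw [flip_mulVec A hxy w i, hw, hwx, mul_zero, ite_self, add_zero, Pi.add_apply, Pi.single_apply]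
  have hwy : w y ≠ 0 := by
    intro h
    apply hw0
    apply hinj
    rw [hAw, h, mul_zero, Pi.single_zero, add_zero]
  have hc : 2 * A x y * w y ≠ 0 := mul_ne_zero (mul_ne_zero two_ne_zero hAxy) hwy
  refine ⟨(2 * A x y * w y)⁻¹ • w, ?_, ?_, ?_, ?_, ?_⟩
  · exact smul_ne_zero (inv_ne_zero hc) hw0
  · rw [Matrix.mulVec_smul, hAw, smul_add, smul_comm _ μ w, ← Pi.single_smul, smul_eq_mul,
      inv_mul_cancel₀ hc]
  · rw [Pi.smul_apply, hwx, smul_zero]
  · rw [Pi.smul_apply, smul_eq_mul]
    field_simp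
  · rw [Matrix.mulVec_smul, hw, smul_comm _ μ w]

end Run7.h299.TP
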